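import Mathlib
import Pool.Agent.TH804.DL2

/-!
Separated points in sets of positive measure, and the size of an interpolation polynomial at separated nodes.
-/

set_option autoImplicit false

open Finset MeasureTheory

namespace Pool.Agent.R303.LM

open Pool.Agent.TH804.DL (PP PP_node card_le)

/-- a set of measure more than `2 s n` contains `n + 1` points separated by `s` -/
theorem sep_points (A : Set ℝ) {s : ℝ} (hs : 0 < s) (n : ℕ) (h : ENNReal.ofReal (2 * s * n) < volume A) :
    ∃ S : Finset ℝ, (∀ x ∈ S, x ∈ A) ∧ S.card = n + 1 ∧ ∀ x ∈ S, ∀ y ∈ S, x ≠ y → s ≤ |x - y| := by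
  classical
  induction n with
  | zero =>
    have h1 : A.Nonempty := by
      rw [Set.nonempty_iff_ne_empty]
      rintro rfl
      simp at h
    obtain ⟨x, hx⟩ := h1
    refine ⟨{x}, by simpa using hx, by simp, ?_⟩
    intro a ha b hb hab
    rw [mem_singleton] at ha hb
    exact absurd (ha.trans hb.symm) hab
  | succ n ih =>
    have h0 : ENNReal.ofReal (2 * s * n) < volume A := by
      refine lt_of_le_of_lt (ENNReal.ofReal_le_ofReal ?_) h
      push_cast
      nlinarith
    obtain ⟨S, hS, hc, hsep⟩ := ih h0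
    have hex : ∃ x ∈ A, ∀ y ∈ S, s ≤ |x - y| := by
      by_contra hcon
      push Not at hcon
      have hsub : A ⊆ ⋃ y ∈ S, Set.Icc (y - s) (y + s) := by
        intro x hx
        obtain ⟨y, hy, hlt⟩ := hcon x hx
        rw [abs_lt] at hlt
        simp only [Set.mem_iUnion]
        exact ⟨y, hy, by linarith, by linarith⟩
      have h1 : volume A ≤ ∑ y ∈ S, volume (Set.Icc (y - s) (y + s)) :=
        (measure_mono hsub).trans (measure_biUnion_finset_le _ _)
      have h2 : ∑ y ∈ S, volume (Set.Icc (y - s) (y + s)) = ENNReal.ofReal (2 * s * (n + 1 : ℕ)) := by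
        simp only [Real.volume_Icc]
        have e : ∀ y : ℝ, y + s - (y - s) = 2 * s := fun y => by ring
        simp only [e]
        rw [sum_const, hc, nsmul_eq_mul, ENNReal.ofReal_mul (by positivity : 0 ≤ 2 * s), mul_comm]
        congr 1
        rw [ENNReal.ofReal_natCast]
      rw [h2] at h1
      exact absurd h (not_lt.2 h1)
    obtain ⟨x, hx, hxS⟩ := hex
    have hxn : x ∉ S := by
      intro hxx
      have := hxS x hxx
      rw [sub_self, abs_zero] at this
      linarith
    refine ⟨insert x S, ?_, by rw [card_insert_of_notMem hxn, hc], ?_⟩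
    · intro y hy
      rcases mem_insert.1 hy with rfl | hy
      · exact hx
      · exact hS y hy
    · intro y hy z hz hyz
      rcases mem_insert.1 hy with hy | hy
      · rcases mem_insert.1 hz with hz | hz
        · exact absurd (hy.trans hz.symm) hyz
        · rw [hy]; exact hxS z hz
      · rcases mem_insert.1 hz with hz | hz
        · rw [hz, abs_sub_comm]; exact hxS y hy
        · exact hsep y hy z hz hyz

/-- `s^k k! ≤ ∏ (h i - x)` for `k` points to the right of `x`, separated by `s` -/
lemma half {ι : Type*} (S : Finset ι) (h : ι → ℝ) {x s : ℝ} (hs : 0 < s)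
    (h1 : ∀ i ∈ S, s ≤ h i - x)
    (hsep : ∀ i ∈ S, ∀ j ∈ S, i ≠ j → s ≤ |h i - h j|) :
    s ^ S.card * S.card.factorial ≤ ∏ i ∈ S, (h i - x) := by
  classical
  induction hn : S.card generalizing S with
  | zero =>
    have : S = ∅ := card_eq_zero.1 hn
    subst this
    simp
  | succ k ih =>
    have hne : S.Nonempty := card_pos.1 (by omega)
    obtain ⟨m, hm, hmax⟩ := S.exists_max_image h hne
    have hc : (S.erase m).card = k := by rw [card_erase_of_mem hm, hn]; rfl
    have h2 := ih (S.erase m) (fun i hi => h1 i (mem_of_mem_erase hi))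
      (fun i hi j hj => hsep i (mem_of_mem_erase hi) j (mem_of_mem_erase hj)) hc
    have h3 : ((k : ℝ) + 1) * s ≤ h m - x := by
      have h4 := card_le S h hs (x := x + s) (D := h m - x - s) (by linarith [h1 m hm])
        (fun i hi => by linarith [h1 i hi]) (fun i hi => by linarith [hmax i hi]) hsep
      rw [hn] at h4
      push_cast at h4
      have h5 : (k : ℝ) ≤ (h m - x - s) / s := by linarith
      rw [le_div_iff₀ hs] at h5
      linarith
    rw [← mul_prod_erase S (fun i => h i - x) hm, Nat.factorial_succ]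
    push_cast
    calc s ^ (k + 1) * (((k : ℝ) + 1) * (k.factorial : ℝ)) =
        (((k : ℝ) + 1) * s) * (s ^ k * (k.factorial : ℝ)) := by ring
      _ ≤ (h m - x) * ∏ i ∈ S.erase m, (h i - x) := by
        apply mul_le_mul h3 h2 (by positivity)
        have : 0 ≤ ((k : ℝ) + 1) * s := by positivity
        linarith

/-- the product of the distances to the other points -/
lemma both {ι : Type*} [DecidableEq ι] (S : Finset ι) (h : ι → ℝ) {s : ℝ} (hs : 0 < s)
    (hsep : ∀ i ∈ S, ∀ j ∈ S, i ≠ j → s ≤ |h i - h j|) {i : ι} (hi : i ∈ S) {k : ℕ} (hk : S.card = k + 1) :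
    (s / 2) ^ k * k.factorial ≤ ∏ j ∈ S.erase i, |h i - h j| := by
  classical
  have hsub : ∀ j ∈ S.erase i, j ∈ S ∧ j ≠ i := fun j hj => ⟨mem_of_mem_erase hj, ne_of_mem_erase hj⟩
  rw [← prod_filter_mul_prod_filter_not (S.erase i) (fun j => h i < h j)]
  set A := (S.erase i).filter (fun j => h i < h j) with hA
  set B := (S.erase i).filter (fun j => ¬ h i < h j) with hB
  have hcard : A.card + B.card = k := by
    rw [hA, hB, card_filter_add_card_filter_not, card_erase_of_mem hi, hk]; rfl
  have hr : s ^ A.card * A.card.factorial ≤ ∏ j ∈ A, |h i - h j| := by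
    rw [prod_congr rfl (g := fun j => h j - h i)]
    · apply half A h hs
      · intro j hj
        rw [hA, mem_filter] at hj
        obtain ⟨h3, h4⟩ := hsub j hj.1
        have h5 := hsep j h3 i hi h4
        rwa [abs_of_pos (by linarith [hj.2])] at h5
      · intro j hj l hl hne
        rw [hA, mem_filter] at hj hl
        exact hsep j (hsub j hj.1).1 l (hsub l hl.1).1 hne
    · intro j hj
      rw [hA, mem_filter] at hj
      rw [abs_sub_comm, abs_of_pos (by linarith [hj.2])]
  have hl : s ^ B.card * B.card.factorial ≤ ∏ j ∈ B, |h i - h j| := by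
    rw [prod_congr rfl (g := fun j => (fun j => -h j) j - -h i)]
    · apply half B (fun j => -h j) hs
      · intro j hj
        rw [hB, mem_filter] at hj
        obtain ⟨h3, h4⟩ := hsub j hj.1
        have h5 := hsep i hi j h3 (Ne.symm h4)
        rw [abs_of_nonneg (by linarith [not_lt.1 hj.2])] at h5
        linarith
      · intro j hj l hl hne
        rw [hB, mem_filter] at hj hl
        have := hsep j (hsub j hj.1).1 l (hsub l hl.1).1 hne
        rw [show -h j - -h l = -(h j - h l) by ring, abs_neg]
        exact this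
    · intro j hj
      rw [hB, mem_filter] at hj
      rw [abs_of_nonneg (by linarith [not_lt.1 hj.2])]
      ring
  have hmul := mul_le_mul hr hl (by positivity) (prod_nonneg fun j _ => abs_nonneg _)
  refine le_trans ?_ hmul
  have hbin : (k.factorial : ℝ) ≤ 2 ^ k * (A.card.factorial * B.card.factorial) := by
    have h1 : k.factorial = (k.choose A.card) * (A.card.factorial * B.card.factorial) := by
      have h2 := Nat.choose_mul_factorial_mul_factorial (n := k) (k := A.card) (by omega)
      have h3 : k - A.card = B.card := by omega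
      rw [h3] at h2
      rw [← h2]; ring
    have h4 : k.choose A.card ≤ 2 ^ k := Nat.choose_le_two_pow _ _
    have h5 : k.factorial ≤ 2 ^ k * (A.card.factorial * B.card.factorial) := by
      rw [h1]
      exact Nat.mul_le_mul_right _ h4
    exact_mod_cast h5
  have e1 : s ^ A.card * (A.card.factorial : ℝ) * (s ^ B.card * (B.card.factorial : ℝ)) =
      s ^ k * (A.card.factorial * B.card.factorial) := by
    rw [← hcard, pow_add]; ring
  rw [e1, div_pow, div_mul_eq_mul_div, div_le_iff₀ (by positivity)]
  calc s ^ k * (k.factorial : ℝ) ≤ s ^ k * (2 ^ k * (A.card.factorial * B.card.factorial)) :=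
        mul_le_mul_of_nonneg_left hbin (by positivity)
    _ = _ := by ring

lemma pow_div_fact (x : ℝ) (hx : 0 ≤ x) (k : ℕ) : x ^ k / (k.factorial : ℝ) ≤ (Real.exp 1 * x / (k + 1)) ^ k * Real.exp 1 := by
  have h1 : ((k : ℝ) + 1) ^ k / (k.factorial : ℝ) ≤ Real.exp (k + 1) :=
    Real.pow_div_factorial_le_exp _ (by positivity) _
  have hk : (0 : ℝ) < (k : ℝ) + 1 := by positivity
  have hf : (0 : ℝ) < k.factorial := by exact_mod_cast k.factorial_pos
  have e1 : Real.exp ((k : ℝ) + 1) = Real.exp 1 ^ k * Real.exp 1 := by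
    rw [Real.exp_add, ← Real.exp_nat_mul, mul_one]
  rw [e1] at h1
  calc x ^ k / (k.factorial : ℝ) = (x / (k + 1)) ^ k * (((k : ℝ) + 1) ^ k / k.factorial) := by
        rw [div_pow]; field_simp
    _ ≤ (x / (k + 1)) ^ k * (Real.exp 1 ^ k * Real.exp 1) :=
        mul_le_mul_of_nonneg_left h1 (by positivity)
    _ = (Real.exp 1 * x / (k + 1)) ^ k * Real.exp 1 := by
        rw [mul_div_assoc, mul_pow]; ring

/-- the interpolation polynomial at `k + 1` nodes separated by `s` -/
theorem PP_le' {S : Finset ℂ} {g : ℂ → ℂ} {r R s m : ℝ} {k : ℕ} (hr : 0 < r) (hR : 0 < R) (hs : 0 < s) (hm : 0 ≤ m)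
    (hk : S.card = k + 1)
    (hS : ∀ z ∈ S, ‖z‖ ≤ r) (hsep : ∀ z ∈ S, ∀ w ∈ S, z ≠ w → s ≤ |z.im - w.im|)
    (hg : ∀ z ∈ S, ‖g z‖ ≤ m) {z : ℂ} (hz : ‖z‖ ≤ R) :
    ‖(PP S g).eval z‖ ≤ (k + 1) * (m * ((Real.exp 1 * (2 * (R + r) / s) / (k + 1)) ^ k * Real.exp 1)) := by
  classical
  have hterm : ∀ w ∈ S, ‖(Lagrange.basis S id w).eval z‖ ≤
      (Real.exp 1 * (2 * (R + r) / s) / (k + 1)) ^ k * Real.exp 1 := by
    intro w hw
    refine le_trans ?_ (pow_div_fact (2 * (R + r) / s) (by positivity) k)
    unfold Lagrange.basis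
    rw [Polynomial.eval_prod, norm_prod]
    have h0 := both S Complex.im hs hsep hw hk
    have hce : (S.erase w).card = k := by rw [card_erase_of_mem hw, hk]; rfl
    have hpos : 0 < (s / 2) ^ k * (k.factorial : ℝ) := by positivity
    calc ∏ j ∈ S.erase w, ‖(Lagrange.basisDivisor (id w) (id j)).eval z‖
        ≤ ∏ j ∈ S.erase w, (R + r) / |w.im - j.im| := by
          apply prod_le_prod
          · intro j _
            exact norm_nonneg _
          · intro j hj
            have hjS := mem_of_mem_erase hj
            have hne : w ≠ j := (ne_of_mem_erase hj).symm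
            unfold Lagrange.basisDivisor
            simp only [id, Polynomial.eval_mul, Polynomial.eval_C, Polynomial.eval_sub, Polynomial.eval_X]
            rw [norm_mul, norm_inv]
            have h1 : |w.im - j.im| ≤ ‖w - j‖ := by
              have := Complex.abs_im_le_norm (w - j)
              rwa [Complex.sub_im] at this
            have h2 : 0 < |w.im - j.im| := lt_of_lt_of_le hs (hsep w hw j hjS hne)
            have h3 : ‖z - j‖ ≤ R + r := (norm_sub_le _ _).trans (by linarith [hS j hjS])
            rw [inv_mul_eq_div]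
            exact div_le_div₀ (by linarith) h3 h2 h1
      _ = (R + r) ^ k / ∏ j ∈ S.erase w, |w.im - j.im| := by
          rw [prod_div_distrib, prod_const, hce]
      _ ≤ (R + r) ^ k / ((s / 2) ^ k * (k.factorial : ℝ)) :=
          div_le_div_of_nonneg_left (by positivity) hpos h0
      _ = (2 * (R + r) / s) ^ k / (k.factorial : ℝ) := by
          rw [div_pow, div_pow, mul_pow]
          field_simp
  unfold PP
  rw [Lagrange.interpolate_apply, Polynomial.eval_finsetSum]
  calc ‖∑ i ∈ S, (Polynomial.C (g i) * Lagrange.basis S id i).eval z‖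
      ≤ ∑ i ∈ S, ‖(Polynomial.C (g i) * Lagrange.basis S id i).eval z‖ := norm_sum_le _ _
    _ ≤ ∑ i ∈ S, m * ((Real.exp 1 * (2 * (R + r) / s) / (k + 1)) ^ k * Real.exp 1) := by
        apply sum_le_sum
        intro i hi
        rw [Polynomial.eval_mul, Polynomial.eval_C, norm_mul]
        exact mul_le_mul (hg i hi) (hterm i hi) (norm_nonneg _) hm
    _ = _ := by rw [sum_const, nsmul_eq_mul, hk]; push_cast; ring

end Pool.Agent.R303.LM
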