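import Mathlib
import Pool.Agent.TH804.MS1
import Pool.Agent.R303.LM.A2

/-!
Near a weighted maximum of zeta on the critical line the ordinates of the small values have a very small measure.
-/

set_option autoImplicit false

open Complex Filter Topology Set MeasureTheory
open W587.PL

set_option maxHeartbeats 4000000

namespace Pool.Agent.R303.LM

open Pool.Agent.TH804.MS

/-- `|ζ(1/2 + it)|` -/
noncomputable def Z (t : ℝ) : ℝ := ‖riemannZeta (1 / 2 + t * Complex.I)‖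

/-- `|ζ(1/2 + it)| = O((1 + |t|)^(κ + ε))` for every `ε > 0` -/
def Exponent (κ : ℝ) : Prop := ∀ ε : ℝ, 0 < ε → ∃ C : ℝ, ∀ t : ℝ, Z t ≤ C * (1 + |t|) ^ (κ + ε)

/-- the ordinates of the points `s` of the disc `|s - (1/2 + iT)| ≤ r` with `|ζ(s)| ≤ v` -/
def Low (T r v : ℝ) : Set ℝ :=
  {t : ℝ | ∃ s : ℂ, s.im = t ∧ ‖s - (1 / 2 + T * Complex.I)‖ ≤ r ∧ ‖riemannZeta s‖ ≤ v}

/-- **the law** -/
theorem law {ε : ℝ} (hε : 0 < ε) (hε1 : ε ≤ 1) : ∃ W T₁ : ℝ, 0 ≤ W ∧ 8 ≤ T₁ ∧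
    ∀ T : ℝ, T₁ ≤ T → 1 ≤ Z T → ∃ T₀ : ℝ, |T₀ - T| ≤ W ∧ Z T ≤ 2 * Z T₀ ∧
      ∀ r : ℝ, 1 / Real.log T ≤ r → r ≤ ε / 20 →
        volume (Low T₀ r (T ^ (-ε) * Z T)) ≤ ENNReal.ofReal (41 * r * Real.exp (-(ε / (5 * r)))) := by
  obtain ⟨a, δ, W, Λ₀, ha, ha', hδ, hW, hΛ₀, hlg⟩ :=
    small_local (ε := 4 / 5 * ε) (B := 3) (by linarith) (by linarith) (by norm_num)
  obtain ⟨T₂, hT₂8, hT₂⟩ := loc ha ha' hδ (by linarith : (0:ℝ) < W)
  refine ⟨W, T₂ + Real.exp Λ₀ + Real.exp (5 / ε) + 2 * W, by linarith, ?_, fun T hT hV => ?_⟩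
  · have := Real.exp_pos Λ₀
    have := Real.exp_pos (5 / ε)
    linarith
  have he1 := Real.exp_pos Λ₀
  have he2 := Real.exp_pos (5 / ε)
  have hT8 : 8 ≤ T := by linarith
  have hT0 : 0 < T := by linarith
  have hTW : W ≤ T / 2 := by linarith
  set Λ : ℝ := Real.log T with hΛd
  have hΛ1 : Λ₀ ≤ Λ := by
    rw [hΛd, Real.le_log_iff_exp_le hT0]; linarith
  have hΛ2 : 5 / ε ≤ Λ := by
    rw [hΛd, Real.le_log_iff_exp_le hT0]; linarith
  have hΛp : 0 < Λ := by linarith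
  have hεΛ : 5 ≤ ε * Λ := by
    rw [div_le_iff₀ hε] at hΛ2; linarith
  have hL := hT₂ T (by linarith)
  have hZ0 : 0 < Z T := by linarith
  have hZF : Z T ≤ ‖F T 0‖ := le_F0 hT8
  have hF1 : 1 ≤ ‖F T 0‖ := hV.trans hZF
  obtain ⟨y₀, hy₀, hy₁, hsm⟩ := hlg (F T) Λ Λ hΛ1 le_rfl hL hF1
  have hy₀W : |y₀| ≤ W := by linarith
  have hcen : ∀ s : ℂ, s - (1 / 2 + ((T + y₀ : ℝ) : ℂ) * Complex.I) =
      (s - (1 / 2 + T * Complex.I)) - y₀ * I := by
    intro s; push_cast; ring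
  have hexp2 : 2 * Real.exp (-(ε * Λ)) ≤ Real.exp (-(4 / 5 * ε * Λ)) := by
    have h1 : Real.exp (-(4 / 5 * ε * Λ)) = Real.exp (-(ε * Λ)) * Real.exp (1 / 5 * (ε * Λ)) := by
      rw [← Real.exp_add]; congr 1; ring
    rw [h1]
    have h2 : 2 ≤ Real.exp (1 / 5 * (ε * Λ)) := by
      have := Real.add_one_le_exp (1 / 5 * (ε * Λ))
      linarith
    nlinarith [Real.exp_pos (-(ε * Λ))]
  have hTε : T ^ (-ε) = Real.exp (-(ε * Λ)) := by
    rw [rpow_exp hT0]; congr 1; ring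
  refine ⟨T + y₀, by rw [add_sub_cancel_left]; exact hy₀W, ?_, fun r hr1 hr2 => ?_⟩
  · have h1 := F_le hT8 (z := (y₀ : ℂ) * I) (by simp) (by simpa using hy₀W.trans hTW)
    have e : (1 / 2 + T * Complex.I + (y₀ : ℂ) * I : ℂ) = 1 / 2 + ((T + y₀ : ℝ) : ℂ) * Complex.I := by
      push_cast; ring
    rw [e] at h1
    exact hZF.trans (hy₁.trans h1)
  · have hr0 : 0 < r := lt_of_lt_of_le (by positivity) hr1
    have h1 := hsm r hr1 (by linarith)
    have e1 : 4 / 5 * ε / (4 * r) = ε / (5 * r) := by field_simp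
    rw [e1] at h1
    refine le_trans ?_ h1
    set A : Set ℝ := {t : ℝ | ∃ z : ℂ, z.im = t ∧ ‖z - y₀ * I‖ ≤ r ∧
      ‖F T z‖ ≤ Real.exp (-(4 / 5 * ε * Λ)) * ‖F T 0‖} with hA
    have h2 : volume ((fun t : ℝ => t + -T) ⁻¹' A) = volume A := measure_preimage_add_right _ _ _
    rw [← h2]
    apply measure_mono
    rintro t ⟨s, hs1, hs2, hs3⟩
    show t + -T ∈ A
    refine ⟨s - (1 / 2 + T * Complex.I), ?_, ?_, ?_⟩
    · simp [hs1]; ring
    · rwa [← hcen]
    · rw [hcen] at hs2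
      set z : ℂ := s - (1 / 2 + T * Complex.I) with hzd
      have h3 := (Complex.abs_re_le_norm (z - y₀ * I)).trans hs2
      have h4 := (Complex.abs_im_le_norm (z - y₀ * I)).trans hs2
      have e3 : (z - (y₀ : ℂ) * I).re = z.re := by simp
      have e4 : (z - (y₀ : ℂ) * I).im = z.im - y₀ := by simp
      rw [e3] at h3
      rw [e4] at h4
      have h5 : |z.im| ≤ T / 2 := by
        have := abs_add_le (z.im - y₀) y₀
        rw [sub_add_cancel] at this
        linarith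
      have h6 := F_le hT8 (z := z) (by linarith) h5
      have e5 : (1 / 2 + T * Complex.I + z : ℂ) = s := by rw [hzd]; ring
      rw [e5] at h6
      rw [hTε] at hs3
      calc ‖F T z‖ ≤ 2 * (Real.exp (-(ε * Λ)) * Z T) := by linarith
        _ = (2 * Real.exp (-(ε * Λ))) * Z T := by ring
        _ ≤ Real.exp (-(4 / 5 * ε * Λ)) * ‖F T 0‖ :=
            mul_le_mul hexp2 hZF hZ0.le (Real.exp_pos _).le

lemma Z_cont : Continuous Z := by
  rw [continuous_iff_continuousAt]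
  intro t
  unfold Z
  have h : (1 / 2 + (t : ℂ) * Complex.I) ≠ 1 := by
    intro h
    have := congrArg Complex.re h
    norm_num at this
  have h1 := (differentiableAt_riemannZeta h).continuousAt
  have h2 : ContinuousAt (fun t : ℝ => (1 / 2 + (t : ℂ) * Complex.I)) t := by fun_prop
  exact (ContinuousAt.comp (f := fun t : ℝ => (1 / 2 + (t : ℂ) * Complex.I)) (g := riemannZeta)
    h1 h2).norm

lemma Z_neg (t : ℝ) : Z (-t) = Z t := by
  unfold Z
  have e : (1 / 2 + ((-t : ℝ) : ℂ) * Complex.I) =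
      (starRingEnd ℂ) (1 / 2 + (t : ℂ) * Complex.I) := by
    simp [map_add, map_mul, map_ofNat]
  rw [e, riemannZeta_conj, Complex.norm_conj]

lemma Z_abs (t : ℝ) : Z t = Z |t| := by
  rcases abs_cases t with ⟨h, _⟩ | ⟨h, _⟩
  · rw [h]
  · rw [h, Z_neg]

lemma exponent_of_large {κ : ℝ} (hκ : 0 ≤ κ)
    (h : ∀ ε : ℝ, 0 < ε → ∃ T₀ : ℝ, ∀ t : ℝ, T₀ ≤ t → Z t ≤ t ^ (κ + ε)) : Exponent κ := by
  intro ε hε
  obtain ⟨T₀, hC⟩ := h ε hε
  obtain ⟨B, hB⟩ := (isCompact_Icc (a := (0 : ℝ)) (b := max T₀ 0)).exists_bound_of_continuousOn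
    Z_cont.continuousOn
  refine ⟨1 + |B|, fun t => ?_⟩
  rw [Z_abs]
  have h1 : 1 ≤ (1 + |t|) ^ (κ + ε) :=
    Real.one_le_rpow (by linarith [abs_nonneg t]) (by linarith)
  by_cases ht : max T₀ 0 ≤ |t|
  · have h2 := hC |t| ((le_max_left _ _).trans ht)
    have h3 : |t| ^ (κ + ε) ≤ (1 + |t|) ^ (κ + ε) :=
      Real.rpow_le_rpow (abs_nonneg t) (by linarith) (by linarith)
    calc Z |t| ≤ (1 + |t|) ^ (κ + ε) := h2.trans h3
      _ ≤ (1 + |B|) * (1 + |t|) ^ (κ + ε) :=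
          le_mul_of_one_le_left (by linarith) (by linarith [abs_nonneg B])
  · push Not at ht
    have h2 := hB |t| ⟨abs_nonneg t, ht.le⟩
    calc Z |t| ≤ ‖Z |t|‖ := le_abs_self _
      _ ≤ 1 + |B| := by linarith [le_abs_self B]
      _ ≤ (1 + |B|) * (1 + |t|) ^ (κ + ε) := le_mul_of_one_le_right (by positivity) h1

/-- the criterion -/
def Thick (κ ε : ℝ) : Prop := ∃ T₁ : ℝ, ∀ T : ℝ, T₁ ≤ T → ∃ r : ℝ, 2 / Real.log T ≤ r ∧ r ≤ ε / 20 ∧
  ENNReal.ofReal (41 * r * Real.exp (-(ε / (5 * r)))) < volume (Low T r (T ^ (κ + ε)))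

lemma Low_mono {T r v v' : ℝ} (h : v ≤ v') : Low T r v ⊆ Low T r v' := by
  rintro t ⟨s, h1, h2, h3⟩
  exact ⟨s, h1, h2, h3.trans h⟩

theorem exponent_of_thick {κ : ℝ} (hκ : 0 ≤ κ) (h : ∀ ε : ℝ, 0 < ε → ε ≤ 1 → Thick κ ε) : Exponent κ := by
  apply exponent_of_large hκ
  intro ε hε
  set e : ℝ := min (ε / 3) 1 with he
  have he0 : 0 < e := lt_min (by linarith) one_pos
  have he1 : e ≤ 1 := min_le_right _ _
  have he3 : 3 * e ≤ ε := by
    have := min_le_left (ε / 3) 1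
    linarith
  obtain ⟨W, T₁, hW, hT₁, hlaw⟩ := law he0 he1
  obtain ⟨T₂, hT₂⟩ := h e he0 he1
  set K : ℝ := (2 : ℝ) ^ (κ + e) with hK
  have hK0 : 0 < K := by positivity
  refine ⟨T₁ + |T₂| + 2 * W + K ^ (1 / e) + 8, fun T hT => ?_⟩
  have hKp : 0 ≤ K ^ (1 / e) := by positivity
  have hT2 := le_abs_self T₂
  have hT2' := abs_nonneg T₂
  have hT8 : 8 ≤ T := by linarith
  have hT0 : 0 < T := by linarith
  by_contra hcon
  push Not at hcon
  have hZT : T ^ (κ + 3 * e) < Z T := lt_of_le_of_lt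
    (Real.rpow_le_rpow_of_exponent_le (by linarith) (by linarith)) hcon
  have hZ1 : 1 ≤ Z T := (Real.one_le_rpow (by linarith) (by linarith)).trans hZT.le
  obtain ⟨T₀, h1, h2, h3⟩ := hlaw T (by linarith) hZ1
  have h1' := abs_le.1 h1
  obtain ⟨r, hr1, hr2, hr3⟩ := hT₂ T₀ (by linarith)
  have hT00 : 1 < T₀ := by linarith
  have hlog0 : 0 < Real.log T₀ := Real.log_pos hT00
  have hlogT : 0 < Real.log T := Real.log_pos (by linarith)
  have hll : Real.log T₀ ≤ 2 * Real.log T := by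
    have h4 : T₀ ≤ T ^ 2 := by nlinarith
    have h5 := Real.log_le_log (by linarith) h4
    rwa [Real.log_pow] at h5
  have hr1' : 1 / Real.log T ≤ r := by
    refine le_trans ?_ hr1
    rw [div_le_div_iff₀ hlogT hlog0]
    linarith
  have h4 := h3 r hr1' hr2
  have hle : T₀ ^ (κ + e) ≤ T ^ (-e) * Z T := by
    have h5 : T₀ ^ (κ + e) ≤ (2 * T) ^ (κ + e) :=
      Real.rpow_le_rpow (by linarith) (by linarith) (by linarith)
    rw [Real.mul_rpow (by norm_num) hT0.le] at h5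
    have h6 : K ≤ T ^ e := W587.PL.large_of_rpow hK0 he0 (by linarith)
    calc T₀ ^ (κ + e) ≤ K * T ^ (κ + e) := h5
      _ ≤ T ^ e * T ^ (κ + e) := mul_le_mul_of_nonneg_right h6 (by positivity)
      _ = T ^ (-e) * T ^ (κ + 3 * e) := by
          rw [← Real.rpow_add hT0, ← Real.rpow_add hT0]; congr 1; ring
      _ ≤ T ^ (-e) * Z T := mul_le_mul_of_nonneg_left hZT.le (by positivity)
  exact absurd (lt_of_lt_of_le hr3 ((measure_mono (Low_mono hle)).trans h4)) (lt_irrefl _)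

theorem thick_of_exponent {κ : ℝ} (hκ : 0 ≤ κ) (hE : Exponent κ) {ε : ℝ} (hε : 0 < ε) (hε1 : ε ≤ 1) :
    Thick κ ε := by
  obtain ⟨C, hC⟩ := hE (ε / 2) (by linarith)
  set K : ℝ := (1 + |C|) * (3:ℝ) ^ (κ + ε / 2) with hK
  have h3 : 1 ≤ (3:ℝ) ^ (κ + ε / 2) := Real.one_le_rpow (by norm_num) (by linarith)
  have hK0 : 0 < K := by
    have := abs_nonneg C
    positivity
  refine ⟨8 + K ^ (1 / (ε / 2)) + Real.exp (40 / ε), fun T hT => ?_⟩
  have hKp : 0 ≤ K ^ (1 / (ε / 2)) := by positivity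
  have hep := Real.exp_pos (40 / ε)
  have hT8 : 8 ≤ T := by linarith
  have hT0 : 0 < T := by linarith
  have hlog : 40 / ε ≤ Real.log T := by
    rw [Real.le_log_iff_exp_le hT0]; linarith
  have hlog0 : 0 < Real.log T := lt_of_lt_of_le (by positivity) hlog
  refine ⟨ε / 20, ?_, le_rfl, ?_⟩
  · rw [div_le_div_iff₀ hlog0 (by norm_num)]
    rw [div_le_iff₀ hε] at hlog
    linarith
  · set r : ℝ := ε / 20 with hr
    have hr0 : 0 < r := by positivity
    have hr1 : r ≤ 1 := by rw [hr]; linarith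
    have hsub : Icc (T - r) (T + r) ⊆ Low T r (T ^ (κ + ε)) := by
      intro t ht
      have ht1 := ht.1
      have ht2 := ht.2
      refine ⟨1 / 2 + t * Complex.I, by simp, ?_, ?_⟩
      · have e : (1 / 2 + (t : ℂ) * Complex.I) - (1 / 2 + T * Complex.I) = ((t - T : ℝ) : ℂ) * Complex.I := by
          push_cast; ring
        rw [e, norm_mul, Complex.norm_I, mul_one, Complex.norm_real, Real.norm_eq_abs, abs_le]
        constructor <;> linarith
      · have h1 := hC t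
        rw [abs_of_pos (by linarith : 0 < t)] at h1
        refine h1.trans ?_
        have h2 : (1 + t) ^ (κ + ε / 2) ≤ (3 * T) ^ (κ + ε / 2) :=
          Real.rpow_le_rpow (by linarith) (by linarith) (by linarith)
        rw [Real.mul_rpow (by norm_num) hT0.le] at h2
        have h5 : K ≤ T ^ (ε / 2) := W587.PL.large_of_rpow hK0 (by linarith) (by linarith)
        calc C * (1 + t) ^ (κ + ε / 2) ≤ (1 + |C|) * ((3:ℝ) ^ (κ + ε / 2) * T ^ (κ + ε / 2)) :=
              mul_le_mul (by linarith [le_abs_self C]) h2 (by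
                have : 0 < 1 + t := by linarith
                positivity) (by positivity)
          _ = K * T ^ (κ + ε / 2) := by rw [hK]; ring
          _ ≤ T ^ (ε / 2) * T ^ (κ + ε / 2) := mul_le_mul_of_nonneg_right h5 (by positivity)
          _ = T ^ (κ + ε) := by rw [← Real.rpow_add hT0]; congr 1; ring
    refine lt_of_lt_of_le ?_ (measure_mono hsub)
    rw [Real.volume_Icc]
    apply (ENNReal.ofReal_lt_ofReal_iff (by linarith)).2
    have e1 : ε / (5 * r) = 4 := by rw [hr]; field_simp; norm_num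
    rw [e1]
    have e2 : Real.exp (-4) ≤ 0.02 := by
      have h6 := Real.exp_one_gt_d9
      have h7 : Real.exp 4 = Real.exp 1 ^ 4 := by
        rw [← Real.exp_nat_mul]; norm_num
      have h8 : 50 ≤ Real.exp 4 := by
        rw [h7]
        have : (2.7 : ℝ) ^ 4 ≤ Real.exp 1 ^ 4 := pow_le_pow_left₀ (by norm_num) (by linarith) 4
        have h9 : (50 : ℝ) ≤ (2.7 : ℝ) ^ 4 := by norm_num
        linarith
      rw [Real.exp_neg, inv_le_comm₀ (Real.exp_pos _) (by norm_num)]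
      norm_num
      exact h8
    have h10 : 41 * r * Real.exp (-4) ≤ 41 * r * 0.02 := mul_le_mul_of_nonneg_left e2 (by positivity)
    linarith

end Pool.Agent.R303.LM
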